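import Pool.Agent.Lib.MP_7946c7_pr.Defs

/-!
# T02. Reachability and components

PROOFS. `rch_saw`: take a walk `γ : ℕ → V` of minimal length `ℓ` from `u` to `v` in `W` (exists by
induction on `ReflTransGen`); it is injective on `0..ℓ`, otherwise a shortcut
(`γ i = γ j`, `i < j`: `fun t => if t ≤ i then γ t else γ (t + (j - i))`) is shorter.
The others are elementary (`ReflTransGen.trans`, symmetry, `ReflTransGen.mono`).
-/

open Finset

namespace RST.T

private lemma t02_mem_cmp {V : Type*} {R : V → V → Prop} {W : Finset V} {v w : V} :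
    w ∈ cmp R W v ↔ w ∈ W ∧ v ∈ W ∧ Rch R W v w := by
  simp [cmp]

private lemma t02_symm {V : Type*} {R : V → V → Prop} (hR : ∀ u v, R u v → R v u) {W : Finset V}
    {u v : V} (h : Rch R W u v) : Rch R W v u := by
  unfold Rch at *
  induction h with
  | refl => exact Relation.ReflTransGen.refl
  | tail _ h2 ih => exact Relation.ReflTransGen.head ⟨hR _ _ h2.1, h2.2.2, h2.2.1⟩ ih

/-- A walk exists. -/
private lemma t02_walk {V : Type*} {R : V → V → Prop} {W : Finset V} {u v : V} (hu : u ∈ W)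
    (h : Rch R W u v) : ∃ (ℓ : ℕ) (γ : ℕ → V), γ 0 = u ∧ γ ℓ = v ∧
      (∀ i < ℓ, R (γ i) (γ (i + 1))) ∧ ∀ i ≤ ℓ, γ i ∈ W := by
  classical
  unfold Rch at h
  induction h with
  | refl => exact ⟨0, fun _ => u, rfl, rfl, fun i hi => absurd hi (Nat.not_lt_zero i),
      fun _ _ => hu⟩
  | @tail b c _ hbc ih =>
    obtain ⟨ℓ, γ, h0, hl, hγ, hW⟩ := ih
    refine ⟨ℓ + 1, fun i => if i ≤ ℓ then γ i else c, ?_, ?_, ?_, ?_⟩
    · simp [h0]
    · simp
    · intro i hi
      rcases Nat.lt_or_ge i ℓ with h1 | h1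
      · have e1 : i ≤ ℓ := h1.le
        have e2 : i + 1 ≤ ℓ := h1
        simp only [e1, e2, if_true]
        exact hγ i h1
      · have e0 : i = ℓ := by omega
        subst e0
        have e2 : ¬ (i + 1 ≤ i) := by omega
        simp only [le_refl, if_true, e2, if_false]
        rw [hl]
        exact hbc.1
    · intro i hi
      by_cases h1 : i ≤ ℓ
      · simp only [h1, if_true]
        exact hW i h1
      · simp only [h1, if_false]
        exact hbc.2.2

variable {V : Type} [Fintype V] [DecidableEq V]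

/-- Reachability gives a self-avoiding walk. -/
theorem rch_saw (R : V → V → Prop) (W : Finset V) (u v : V) (hu : u ∈ W) (h : Rch R W u v) :
    ∃ (γ : ℕ → V) (ℓ : ℕ), γ 0 = u ∧ γ ℓ = v ∧ IsSAW R γ ℓ ∧ ∀ i ≤ ℓ, γ i ∈ W := by
  classical
  have hex := t02_walk hu h
  obtain ⟨ℓ, hℓ⟩ : ∃ ℓ, ℓ = Nat.find hex := ⟨_, rfl⟩
  obtain ⟨γ, h0, hl, hγ, hW⟩ := Nat.find_spec hex
  rw [← hℓ] at hl hγ hW
  refine ⟨γ, ℓ, h0, hl, ⟨hγ, ?_⟩, hW⟩
  have key : ∀ i ≤ ℓ, ∀ j ≤ ℓ, i < j → γ i ≠ γ j := by
    intro i hi j hj hij heq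
    have hmin := Nat.find_min hex (m := ℓ - (j - i)) (by omega)
    apply hmin
    refine ⟨fun t => if t ≤ i then γ t else γ (t + (j - i)), ?_, ?_, ?_, ?_⟩
    · simp [h0]
    · by_cases h1 : ℓ - (j - i) ≤ i
      · have e1 : ℓ - (j - i) = i := by omega
        have e2 : j = ℓ := by omega
        simp only [e1, le_refl, if_true]
        rw [heq, e2, hl]
      · simp only [h1, if_false]
        have e1 : ℓ - (j - i) + (j - i) = ℓ := by omega
        rw [e1, hl]
    · intro t ht
      rcases Nat.lt_or_ge t i with h1 | h1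
      · have e1 : t ≤ i := h1.le
        have e2 : t + 1 ≤ i := h1
        simp only [e1, e2, if_true]
        exact hγ t (by omega)
      · have e2 : ¬ (t + 1 ≤ i) := by omega
        rcases Nat.lt_or_ge i t with h2 | h2
        · have e1 : ¬ (t ≤ i) := by omega
          simp only [e1, e2, if_false]
          have := hγ (t + (j - i)) (by omega)
          have e3 : t + 1 + (j - i) = t + (j - i) + 1 := by omega
          rw [e3]
          exact this
        · have e0 : t = i := by omega
          subst e0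
          simp only [le_refl, if_true, e2, if_false]
          have := hγ j (by omega)
          have e3 : t + 1 + (j - t) = j + 1 := by omega
          rw [e3, heq]
          exact this
    · intro t ht
      by_cases h1 : t ≤ i
      · simp only [h1, if_true]
        exact hW t (by omega)
      · simp only [h1, if_false]
        exact hW (t + (j - i)) (by omega)
  intro i hi j hj heq
  by_contra hne
  rcases Nat.lt_or_gt_of_ne hne with h1 | h1
  · exact key i hi j hj h1 heq
  · exact key j hj i hi h1 heq.symm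

/-- A walk gives reachability. -/
theorem rch_of_walk (R : V → V → Prop) (W : Finset V) (γ : ℕ → V) (ℓ : ℕ)
    (h : ∀ i < ℓ, R (γ i) (γ (i + 1))) (hW : ∀ i ≤ ℓ, γ i ∈ W) : Rch R W (γ 0) (γ ℓ) := by
  induction ℓ with
  | zero => exact Relation.ReflTransGen.refl
  | succ ℓ ih =>
    exact Relation.ReflTransGen.tail (ih (fun i hi => h i (by omega)) fun i hi => hW i (by omega))
      ⟨h ℓ (by omega), hW ℓ (by omega), hW (ℓ + 1) le_rfl⟩

/-- Components of a symmetric relation. -/
theorem cmp_eq_of_mem (R : V → V → Prop) (hR : ∀ u v, R u v → R v u) (W : Finset V) (u v : V)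
    (h : v ∈ cmp R W u) : cmp R W v = cmp R W u := by
  obtain ⟨hv, hu, huv⟩ := t02_mem_cmp.1 h
  ext w
  rw [t02_mem_cmp, t02_mem_cmp]
  exact ⟨fun h' => ⟨h'.1, hu, Relation.ReflTransGen.trans huv h'.2.2⟩,
    fun h' => ⟨h'.1, hv, Relation.ReflTransGen.trans (t02_symm hR huv) h'.2.2⟩⟩

theorem mem_cmp_self (R : V → V → Prop) (W : Finset V) (u : V) (hu : u ∈ W) : u ∈ cmp R W u :=
  t02_mem_cmp.2 ⟨hu, hu, Relation.ReflTransGen.refl⟩

/-- Different components are disjoint. -/
theorem cmp_disjoint (R : V → V → Prop) (hR : ∀ u v, R u v → R v u) (W : Finset V) (u v : V)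
    (h : cmp R W u ≠ cmp R W v) : Disjoint (cmp R W u) (cmp R W v) := by
  rw [Finset.disjoint_left]
  intro x hx hx'
  exact h ((cmp_eq_of_mem R hR W u x hx).symm.trans (cmp_eq_of_mem R hR W v x hx'))

/-- Components grow with the relation and with the vertex set. -/
theorem cmp_mono (R S : V → V → Prop) (hRS : ∀ u v, R u v → S u v) (W W' : Finset V)
    (hW : W ⊆ W') (u : V) : cmp R W u ⊆ cmp S W' u := by
  intro x hx
  obtain ⟨hx1, hx2, hx3⟩ := t02_mem_cmp.1 hx
  refine t02_mem_cmp.2 ⟨hW hx1, hW hx2, ?_⟩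
  unfold Rch at *
  induction hx3 with
  | refl => exact Relation.ReflTransGen.refl
  | @tail b c hab hbc ih =>
    have hb : b ∈ W := hbc.2.1
    have hb' : b ∈ cmp R W u := t02_mem_cmp.2 ⟨hb, hx2, hab⟩
    exact Relation.ReflTransGen.tail (ih hb' hb) ⟨hRS _ _ hbc.1, hW hb, hW hx1⟩

end RST.T
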