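import Pool.Agent.Lib.MP_7946c7_pr.Defs

/-!
# T01. Self-avoiding walks in trees
-/

open Finset

namespace RST.T

variable {V : Type} [Fintype V] [DecidableEq V]

theorem T01_walk (T : SimpleGraph V) (γ : ℕ → V) (ℓ : ℕ) (h : ∀ i < ℓ, T.Adj (γ i) (γ (i + 1))) :
    ∃ p : T.Walk (γ 0) (γ ℓ), p.length = ℓ ∧ ∀ i ≤ ℓ, p.getVert i = γ i := by
  induction ℓ with
  | zero =>
    refine ⟨SimpleGraph.Walk.nil, rfl, ?_⟩
    intro i hi
    have : i = 0 := by omega
    subst this
    rfl
  | succ n ih =>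
    obtain ⟨p, hp, hg⟩ := ih (fun i hi => h i (by omega))
    refine ⟨p.concat (h n (by omega)), ?_, ?_⟩
    · rw [SimpleGraph.Walk.length_concat, hp]
    · intro i hi
      rcases Nat.lt_or_ge i (n + 1) with h1 | h1
      · rw [SimpleGraph.Walk.concat_eq_append, SimpleGraph.Walk.getVert_append]
        split_ifs with h2
        · exact hg i (by omega)
        · have h3 : i = n := by omega
          subst h3
          rw [hp, Nat.sub_self]
          simp
      · have h3 : i = n + 1 := by omega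
        subst h3
        have h4 : (p.concat (h n (by omega))).length = n + 1 := by
          rw [SimpleGraph.Walk.length_concat, hp]
        have h5 := (p.concat (h n (by omega))).getVert_length
        rw [h4] at h5
        exact h5

theorem T01_path (T : SimpleGraph V) (γ : ℕ → V) (ℓ : ℕ) (h : IsSAW T.Adj γ ℓ) :
    ∃ p : T.Walk (γ 0) (γ ℓ), p.IsPath ∧ p.length = ℓ ∧ ∀ i ≤ ℓ, p.getVert i = γ i := by
  obtain ⟨p, hp, hg⟩ := T01_walk T γ ℓ h.1
  refine ⟨p, ?_, hp, hg⟩
  rw [SimpleGraph.Walk.isPath_iff_injective_get_support]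
  intro i j hij
  have hsup : p.support.length = ℓ + 1 := by rw [SimpleGraph.Walk.length_support, hp]
  have hi2 := i.2
  have hj2 := j.2
  have hi : (i : ℕ) ≤ ℓ := by omega
  have hj : (j : ℕ) ≤ ℓ := by omega
  have h1 : p.getVert i = p.getVert j := by
    rw [SimpleGraph.Walk.getVert_eq_support_getElem _ (by omega),
      SimpleGraph.Walk.getVert_eq_support_getElem _ (by omega)]
    exact hij
  rw [hg _ hi, hg _ hj] at h1
  exact Fin.ext (h.2 _ hi _ hj h1)

theorem T01_saw (T : SimpleGraph V) {u v : V} (p : T.Walk u v) (hp : p.IsPath) :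
    IsSAW T.Adj p.getVert p.length := by
  constructor
  · intro i hi
    exact p.adj_getVert_succ hi
  · intro i hi j hj hij
    exact hp.getVert_injOn hi hj hij

/-- Every path of a tree is at most as long as the diameter. -/
theorem saw_le_diam (T : SimpleGraph V) (hT : T.IsTree) (γ : ℕ → V) (ℓ : ℕ)
    (h : IsSAW T.Adj γ ℓ) : ℓ ≤ T.diam := by
  obtain ⟨p, hp, hl, -⟩ := T01_path T γ ℓ h
  have h1 : T.dist (γ 0) (γ ℓ) = p.length := by
    obtain ⟨q, hq, hql⟩ := hT.connected.exists_path_of_dist (γ 0) (γ ℓ)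
    have h2 := hT.existsUnique_path (γ 0) (γ ℓ)
    have h3 : p = q := h2.unique hp hq
    rw [h3, hql]
  have hne : T.ediam ≠ ⊤ := by
    have : Nonempty V := ⟨γ 0⟩
    exact (SimpleGraph.connected_iff_ediam_ne_top).1 hT.connected
  have := SimpleGraph.dist_le_diam hne (u := γ 0) (v := γ ℓ)
  omega

/-- There is a path whose length is the diameter. -/
theorem exists_saw_diam (T : SimpleGraph V) (hT : T.IsTree) :
    ∃ γ : ℕ → V, IsSAW T.Adj γ T.diam := by
  have : Nonempty V := hT.connected.nonempty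
  obtain ⟨u, v, huv⟩ := SimpleGraph.exists_dist_eq_diam (G := T)
  obtain ⟨q, hq, hql⟩ := hT.connected.exists_path_of_dist u v
  refine ⟨q.getVert, ?_⟩
  rw [← huv, ← hql]
  exact T01_saw T q hq

/-- In a tree two paths with the same endpoints are equal. -/
theorem saw_unique (T : SimpleGraph V) (hT : T.IsTree) (γ γ' : ℕ → V) (ℓ ℓ' : ℕ)
    (h : IsSAW T.Adj γ ℓ) (h' : IsSAW T.Adj γ' ℓ') (h0 : γ 0 = γ' 0) (h1 : γ ℓ = γ' ℓ') :
    ℓ = ℓ' ∧ ∀ i ≤ ℓ, γ i = γ' i := by
  obtain ⟨p, hp, hl, hg⟩ := T01_path T γ ℓ h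
  obtain ⟨p', hp', hl', hg'⟩ := T01_path T γ' ℓ' h'
  have key : ∀ (u u' v v' : V) (p : T.Walk u v) (p' : T.Walk u' v'), u = u' → v = v' →
      p.IsPath → p'.IsPath → p.length = p'.length ∧ ∀ i, p.getVert i = p'.getVert i := by
    intro u u' v v' p p' e e' hp hp'
    subst e
    subst e'
    have h3 : p = p' := (hT.existsUnique_path u v).unique hp hp'
    subst h3
    exact ⟨rfl, fun i => rfl⟩
  obtain ⟨k1, k2⟩ := key _ _ _ _ p p' h0 h1 hp hp'
  refine ⟨by omega, ?_⟩
  intro i hi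
  rw [← hg i hi, k2, hg' i (by omega)]

/-- In a tree there is a path between any two vertices. -/
theorem saw_exists (T : SimpleGraph V) (hT : T.IsTree) (u v : V) :
    ∃ (γ : ℕ → V) (ℓ : ℕ), IsSAW T.Adj γ ℓ ∧ γ 0 = u ∧ γ ℓ = v := by
  obtain ⟨q, hq, -⟩ := hT.connected.exists_path_of_dist u v
  exact ⟨q.getVert, q.length, T01_saw T q hq, by simp, by simp⟩

end RST.T
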